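import Pool.Agent.E8helper23.SG.Stm
import Pool.Agent.E8helper63.SZ.Pos

/-! Project SG, piece FIN. -/

set_option autoImplicit false

namespace Pool.Agent.E8helper23.SG

open Finset
open Pool.Agent.E8helper22.SZ (RealPrim cv tau)

lemma T_one_le {q : ℕ} (χ : DirichletCharacter ℂ q) (hq : 0 < q) (h : RealPrim q χ) {R : ℕ}
    (hR : 0 < R) : 1 ≤ T χ R := by
  have hpos := Pool.Agent.E8helper63.SZ.t_POS q χ hq h
  unfold T
  have h1 : tau χ 1 / (1 : ℕ) ≤ ∑ n ∈ Icc 1 R, tau χ n / n :=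
    Finset.single_le_sum (f := fun n : ℕ => tau χ n / n) (fun n hn =>
      div_nonneg (hpos n (Finset.mem_Icc.1 hn).1).1 (Nat.cast_nonneg _))
      (Finset.mem_Icc.2 ⟨le_rfl, hR⟩)
  have h2 : tau χ 1 / (1 : ℕ) = 1 := by
    unfold Pool.Agent.E8helper22.SZ.tau Pool.Agent.E8helper22.SZ.cv
    simp
  rwa [h2] at h1

/-- FIN, with the bound for `L(1, χ)`. -/
def S_FIN2 : Prop :=
  (∃ c : ℝ, 0 < c ∧ ∃ n₀ : ℕ, ∀ n : ℕ, n₀ ≤ n → (4 ∣ n ∨ 6 ∣ n) →
    c * (n : ℝ) / Real.log n ^ 2 ≤ (g n : ℝ)) →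
  ∃ c : ℝ, 0 < c ∧ ∃ q₀ : ℕ, ∀ (q : ℕ) [NeZero q] (χ : DirichletCharacter ℂ q), q₀ ≤ q →
    RealPrim q χ → (χ (-1) = -1 ∨ 2 ∣ q ∨ 3 ∣ q) →
    c * (Nat.totient q : ℝ) / (q * Real.log q) ≤ ‖χ.LFunction 1‖ ∧
    ∀ β : ℝ, χ.LFunction β = 0 → β ≤ 1 - c * (Nat.totient q : ℝ) / (q * Real.log q)

lemma log_le_sqrt {y : ℝ} (hy : 0 < y) : Real.log y ≤ 2 * Real.sqrt y := by
  have hs : 0 < Real.sqrt y := Real.sqrt_pos.2 hy
  have h1 : Real.log (Real.sqrt y) ≤ Real.sqrt y - 1 := Real.log_le_sub_one_of_pos hs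
  have h2 : Real.log (Real.sqrt y) = Real.log y / 2 := Real.log_sqrt hy.le
  linarith

theorem t_FIN2 (hG : S_GOLD) (hS : S_SIEVE) (hZ : S_ZT) : S_FIN2 := by
  rintro ⟨c₀, hc₀, n₀, hn₀⟩
  obtain ⟨c₁, hc₁, q₁, hG⟩ := hG c₀ n₀ 140 hc₀ (by norm_num) hn₀
  obtain ⟨C, hC, hZ⟩ := hZ
  obtain ⟨q₂, hq₂⟩ := exists_nat_ge ((4 * (C + 9) / c₁) ^ 2)
  set c : ℝ := min 1 (min (c₁ / 2) (c₁ / (2 * C))) with hc
  have hcpos : 0 < c := by
    rw [hc]
    refine lt_min one_pos (lt_min ?_ ?_) <;> positivity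
  have hc1 : c ≤ 1 := min_le_left _ _
  have hc2 : c ≤ c₁ / 2 := (min_le_right _ _).trans (min_le_left _ _)
  have hc3 : c ≤ c₁ / (2 * C) := (min_le_right _ _).trans (min_le_right _ _)
  refine ⟨c, hcpos, q₁ + q₂ + 9, ?_⟩
  intro q _ χ hq h hcl
  have hq0 : (0 : ℝ) < q := by
    have : 0 < q := by omega
    exact_mod_cast this
  have hq9 : (9 : ℝ) ≤ q := by exact_mod_cast (by omega : 9 ≤ q)
  have hq2 : ((4 * (C + 9) / c₁) ^ 2) ≤ q := hq₂.trans (by exact_mod_cast (by omega : q₂ ≤ q))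
  have hlog : 1 < Real.log q := by
    rw [Real.lt_log_iff_exp_lt hq0]
    have := Real.exp_one_lt_d9
    linarith
  have hlog0 : 0 < Real.log q := by linarith
  have hφ1 : (1 : ℝ) ≤ (Nat.totient q : ℝ) := by
    exact_mod_cast Nat.totient_pos.2 (by omega : 0 < q)
  have hφq : (Nat.totient q : ℝ) ≤ q := by exact_mod_cast Nat.totient_le q
  set ρ : ℝ := (Nat.totient q : ℝ) / (q * Real.log q) with hρ
  have hρ0 : 0 < ρ := by positivity
  have hρ1 : ρ ≤ 1 / Real.log q := by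
    rw [hρ, div_le_div_iff₀ (by positivity) hlog0]
    nlinarith
  -- the small terms
  have hsmall : (C + 9) / (q : ℝ) ^ 2 ≤ c₁ / 2 * ρ := by
    have h1 : 4 * (C + 9) / c₁ ≤ Real.sqrt q := by
      apply Real.le_sqrt_of_sq_le
      exact hq2
    have h2 := log_le_sqrt hq0
    have hsq : Real.sqrt q * Real.sqrt q = q := Real.mul_self_sqrt hq0.le
    have hs0 : 0 < Real.sqrt q := Real.sqrt_pos.2 hq0
    have h3 : 4 * (C + 9) ≤ c₁ * Real.sqrt q := by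
      rw [div_le_iff₀ hc₁] at h1
      linarith
    have h4 : (C + 9) * Real.log q ≤ c₁ / 2 * q := by
      calc (C + 9) * Real.log q ≤ (C + 9) * (2 * Real.sqrt q) := by gcongr
        _ = (4 * (C + 9)) * Real.sqrt q / 2 := by ring
        _ ≤ (c₁ * Real.sqrt q) * Real.sqrt q / 2 := by gcongr
        _ = c₁ / 2 * q := by
            rw [mul_assoc, hsq]
            ring
    have h5 : (C + 9) / (q : ℝ) ^ 2 ≤ c₁ / 2 * (1 / (q * Real.log q)) := by
      rw [div_le_iff₀ (by positivity)]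
      have e : c₁ / 2 * (1 / (q * Real.log q)) * (q : ℝ) ^ 2 = c₁ / 2 * q / Real.log q := by
        field_simp
      rw [e, le_div_iff₀ hlog0]
      exact h4
    refine h5.trans ?_
    rw [hρ]
    gcongr
  -- the sieve
  have hx0 : (0 : ℝ) < (q : ℝ) ^ 140 := by positivity
  have hN := hG q χ (by omega) h hcl
  have hqn : 0 < q := by omega
  have hsv := hS q χ (by omega) h (q ^ 6) (q ^ 140) (pow_pos hqn _) (pow_pos hqn _)
  have hT1 : 1 ≤ T χ (q ^ 6) := T_one_le χ (by omega) h (pow_pos hqn _)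
  set L : ℝ := ‖χ.LFunction 1‖ with hL
  have hL0 : 0 ≤ L := norm_nonneg _
  have hmain : c₁ * ρ ≤ L / T χ (q ^ 6) + 9 / (q : ℝ) ^ 2 := by
    have hsqrt : Real.sqrt (((q ^ 140 : ℕ) : ℝ)) = (q : ℝ) ^ 70 := by
      have : (((q ^ 140 : ℕ) : ℝ)) = ((q : ℝ) ^ 70) ^ 2 := by
        push_cast
        ring
      rw [this, Real.sqrt_sq (by positivity)]
    rw [hsqrt] at hsv
    have e1 : c₁ * (q : ℝ) ^ 140 * (Nat.totient q : ℝ) / (q * Real.log q) =
        (q : ℝ) ^ 140 * (c₁ * ρ) := by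
      rw [hρ]
      ring
    rw [e1] at hN
    have h1 := hN.trans hsv
    push_cast at h1
    have h2 : (q : ℝ) ^ 6 + 8 * q * ((q : ℝ) ^ 6) ^ 10 * (q : ℝ) ^ 70 ≤
        (q : ℝ) ^ 140 * (9 / (q : ℝ) ^ 2) := by
      have e2 : (q : ℝ) ^ 140 * (9 / (q : ℝ) ^ 2) = 9 * (q : ℝ) ^ 138 := by
        field_simp
      have e3 : 8 * (q : ℝ) * ((q : ℝ) ^ 6) ^ 10 * (q : ℝ) ^ 70 = 8 * (q : ℝ) ^ 131 := by ring
      rw [e2, e3]
      have h3 : (q : ℝ) ^ 6 ≤ (q : ℝ) ^ 138 := pow_le_pow_right₀ (by linarith) (by norm_num)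
      have h4 : (q : ℝ) ^ 131 ≤ (q : ℝ) ^ 138 := pow_le_pow_right₀ (by linarith) (by norm_num)
      linarith
    have h5 : (q : ℝ) ^ 140 * (c₁ * ρ) ≤ (q : ℝ) ^ 140 * (L / T χ (q ^ 6) + 9 / (q : ℝ) ^ 2) := by
      rw [mul_add]
      have e4 : (q : ℝ) ^ 140 * (L / T χ (q ^ 6)) = (q : ℝ) ^ 140 * L / T χ (q ^ 6) := by ring
      rw [e4]
      linarith
    exact le_of_mul_le_mul_left h5 hx0
  have hT0 : 0 < T χ (q ^ 6) := by linarith
  have hLT : L / T χ (q ^ 6) ≤ L := div_le_self hL0 hT1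
  have h9 : 9 / (q : ℝ) ^ 2 ≤ (C + 9) / (q : ℝ) ^ 2 := by
    gcongr
    linarith
  have ecρ : ∀ a : ℝ, a * (Nat.totient q : ℝ) / (q * Real.log q) = a * ρ := by
    intro a
    rw [hρ]
    ring
  rw [ecρ]
  constructor
  · have h1 : c * ρ ≤ c₁ / 2 * ρ := by gcongr
    linarith
  · intro β hβ
    rcases le_or_gt β (1 - 1 / Real.log q) with h1 | h1
    · have : c * ρ ≤ 1 / Real.log q := by
        calc c * ρ ≤ 1 * ρ := by gcongr
          _ ≤ _ := by rw [one_mul]; exact hρ1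
      linarith
    · rcases le_or_gt 1 β with h2 | h2
      · exfalso
        have hχ : χ ≠ 1 := by
          rintro rfl
          have h3 := h.prim
          rw [DirichletCharacter.isPrimitive_def, DirichletCharacter.conductor_one] at h3
          omega
        exact DirichletCharacter.LFunction_ne_zero_of_one_le_re χ (Or.inl hχ) (by simpa using h2) hβ
      · have h3 := hZ q χ (by omega) h β h1.le h2 hβ
        have h4 : L / T χ (q ^ 6) ≤ C * (1 - β) + C / (q : ℝ) ^ 2 := by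
          rw [div_le_iff₀ hT0]
          have h5 : C / (q : ℝ) ^ 2 ≤ C / (q : ℝ) ^ 2 * T χ (q ^ 6) :=
            le_mul_of_one_le_right (by positivity) hT1
          nlinarith
        have h5 : (C + 9) / (q : ℝ) ^ 2 = C / (q : ℝ) ^ 2 + 9 / (q : ℝ) ^ 2 := by ring
        have h6 : c₁ / 2 * ρ ≤ C * (1 - β) := by linarith
        have h7 : c * ρ ≤ 1 - β := by
          calc c * ρ ≤ c₁ / (2 * C) * ρ := by gcongr
            _ = (c₁ / 2 * ρ) / C := by field_simp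
            _ ≤ (C * (1 - β)) / C := by gcongr
            _ = 1 - β := by field_simp
        linarith

end Pool.Agent.E8helper23.SG
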