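import Pool.Agent.E8helper23.SG.Fin

/-! Project SG, the unconditional bound: few special `n` have many representations. -/

set_option autoImplicit false

namespace Pool.Agent.E8helper23.SG

open Finset
open Pool.Agent.E8helper22.SZ (RealPrim cv tau)

/-- the special `n` -/
def Spec (q : ℕ) (χ : DirichletCharacter ℂ q) (n : ℕ) : Prop :=
  (χ (-1) = -1 ∧ q ∣ n) ∨
  (χ (-1) = 1 ∧ ¬ q ∣ n ∧ ((2 ∣ q ∧ q / 2 ∣ n) ∨ (3 ∣ q ∧ q / 3 ∣ n)))

/-- the number `lam` is `‖L(1, χ)‖`, or the distance to one of a real zero -/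
def IsLam (q : ℕ) [NeZero q] (χ : DirichletCharacter ℂ q) (lam : ℝ) : Prop :=
  lam = ‖χ.LFunction 1‖ ∨
  ∃ β : ℝ, 1 - 1 / Real.log q ≤ β ∧ β < 1 ∧ χ.LFunction β = 0 ∧ lam = 1 - β

lemma tot_le {p q' : ℕ} (hp : p.Prime) : Nat.totient (p * q') ≤ p * Nat.totient q' := by
  by_cases h : p ∣ q'
  · rw [Nat.totient_mul_of_prime_of_dvd hp h]
  · rw [Nat.totient_mul_of_prime_of_not_dvd hp h]
    exact Nat.mul_le_mul_right _ (Nat.sub_le _ _)

/-- one class -/
lemma one_class (hA : S_ARC) {q q' x : ℕ} {χ : DirichletCharacter ℂ q} {S : Finset ℕ} {δ M : ℝ}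
    (hq' : 0 < q') (hq1 : 1 < x) (hx : (q' : ℝ) ≤ Real.sqrt x) (hδ : 0 < δ)
    (hM : ((Np χ x).card : ℝ) ≤ M)
    (hS : ∀ n ∈ S, n ≤ x ∧ q' ∣ n ∧
      ∀ p₁ p₂ : ℕ, p₁ + p₂ = n → ¬ (cv χ p₁ = -1 ∧ cv χ p₂ = -1))
    (hg : ∀ n ∈ S, δ * x / Real.log x ^ 2 ≤ (g n : ℝ)) :
    (S.card : ℝ) ≤ 176 / δ * M * Real.log x / Nat.totient q' := by
  have hx1 : (1 : ℝ) < x := by exact_mod_cast hq1
  have hx0 : (0 : ℝ) < x := by linarith
  have hlog : 0 < Real.log x := Real.log_pos hx1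
  have hq0 : (0 : ℝ) < q' := by exact_mod_cast hq'
  have hφ : (0 : ℝ) < Nat.totient q' := by exact_mod_cast Nat.totient_pos.2 hq'
  have hsq : Real.sqrt x * Real.sqrt x = x := Real.mul_self_sqrt hx0.le
  have hs1 : 1 < Real.sqrt x := by
    rw [Real.lt_sqrt (by norm_num)]
    linarith
  have hqx : (q' : ℝ) ≤ x := hx.trans (by nlinarith)
  have hqxn : q' ≤ x := by exact_mod_cast hqx
  have h1 := hA q q' x χ S hq' hqxn hS
  have h2 : (S.card : ℝ) * (δ * x / Real.log x ^ 2) ≤ ∑ n ∈ S, (g n : ℝ) := by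
    rw [← nsmul_eq_mul]
    exact Finset.card_nsmul_le_sum _ _ _ hg
  set N : ℕ := x / q' + 1 with hN
  have hN1 : (x : ℝ) / q' ≤ N := by
    have h3 := Nat.lt_floor_add_one ((x : ℝ) / q')
    rw [Nat.floor_div_natCast, Nat.floor_natCast] at h3
    rw [hN]
    push_cast
    exact h3.le
  have hN2 : (N : ℝ) ≤ 2 * (x / q') := by
    have h3 : ((x / q' : ℕ) : ℝ) ≤ (x : ℝ) / q' := Nat.cast_div_le
    have h4 : 1 ≤ (x : ℝ) / q' := by
      rw [le_div_iff₀ hq0]
      linarith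
    rw [hN]
    push_cast
    linarith
  have hxq : Real.sqrt x ≤ (x : ℝ) / q' := by
    rw [le_div_iff₀ hq0]
    calc Real.sqrt x * q' ≤ Real.sqrt x * Real.sqrt x := by gcongr
      _ = x := hsq
  have hlogN : Real.log x / 2 ≤ Real.log N := by
    rw [← Real.log_sqrt hx0.le]
    exact Real.log_le_log (by linarith) (hxq.trans hN1)
  have hM0 : 0 ≤ M := (Nat.cast_nonneg _).trans hM
  have h3 : 2 * ((Np χ x).card : ℝ) * (22 * ((q' : ℝ) / Nat.totient q') * (N : ℝ) / Real.log N) ≤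
      176 * M * x / (Nat.totient q' * Real.log x) := by
    calc 2 * ((Np χ x).card : ℝ) * (22 * ((q' : ℝ) / Nat.totient q') * (N : ℝ) / Real.log N)
        ≤ 2 * M * (22 * ((q' : ℝ) / Nat.totient q') * (2 * (x / q')) / (Real.log x / 2)) := by
          gcongr
      _ = 176 * M * x / (Nat.totient q' * Real.log x) := by
          field_simp
          ring
  have h4 : (S.card : ℝ) * (δ * x / Real.log x ^ 2) ≤ 176 * M * x / (Nat.totient q' * Real.log x) :=
    h2.trans (h1.trans h3)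
  have h5 : (S.card : ℝ) = (S.card : ℝ) * (δ * x / Real.log x ^ 2) * (Real.log x ^ 2 / (δ * x)) := by
    field_simp
  have h6 : 176 / δ * M * Real.log x / Nat.totient q' =
      176 * M * x / (Nat.totient q' * Real.log x) * (Real.log x ^ 2 / (δ * x)) := by
    field_simp
  rw [h5, h6]
  gcongr

theorem t_NEG (hC : S_CLS) (hA : S_ARC) (hS : S_SIEVE) (hZ : S_ZT) :
    ∃ C : ℝ, 0 < C ∧ ∀ (q : ℕ) [NeZero q] (χ : DirichletCharacter ℂ q), 8 ≤ q →
      RealPrim q χ → ∀ lam : ℝ, IsLam q χ lam → ∀ δ : ℝ, 0 < δ → ∀ x : ℕ, q ^ 140 ≤ x →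
      ∀ S : Finset ℕ, (∀ n ∈ S, n ≤ x ∧ Spec q χ n ∧ δ * x / Real.log x ^ 2 ≤ (g n : ℝ)) →
      (S.card : ℝ) ≤ C / δ * (lam + 1 / (q : ℝ) ^ 2) * (x * Real.log x / Nat.totient q) := by
  classical
  obtain ⟨C₁, hC₁, hZ⟩ := hZ
  refine ⟨176 * 6 * (C₁ + 10), by positivity, ?_⟩
  intro q _ χ hq h lam hlam δ hδ x hx S hS'
  have hqn : 0 < q := by omega
  have hq8 : (8 : ℝ) ≤ q := by exact_mod_cast hq
  have hq0 : (0 : ℝ) < q := by linarith
  have hxr : (q : ℝ) ^ 140 ≤ x := by exact_mod_cast hx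
  have hxpos : (0 : ℝ) < x := lt_of_lt_of_le (by positivity) hxr
  have hT1 : 1 ≤ T χ (q ^ 6) := T_one_le χ hqn h (pow_pos hqn _)
  have hT0 : 0 < T χ (q ^ 6) := by linarith
  have hsqrt : (q : ℝ) ^ 70 ≤ Real.sqrt x := by
    apply Real.le_sqrt_of_sq_le
    have e : ((q : ℝ) ^ 70) ^ 2 = (q : ℝ) ^ 140 := by ring
    rw [e]
    exact hxr
  have hsq : Real.sqrt x * Real.sqrt x = x := Real.mul_self_sqrt hxpos.le
  have hs0 : 0 < Real.sqrt x := Real.sqrt_pos.2 hxpos
  have hx1 : 1 < x := by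
    have : (1 : ℝ) < x := by
      refine lt_of_lt_of_le ?_ hxr
      exact one_lt_pow₀ (by linarith) (by norm_num)
    exact_mod_cast this
  have hlog : 0 < Real.log x := Real.log_pos (by exact_mod_cast hx1)
  have hlam0 : 0 ≤ lam := by
    rcases hlam with rfl | ⟨β, -, h2, -, rfl⟩
    · exact norm_nonneg _
    · linarith
  set M : ℝ := (C₁ + 10) * (lam + 1 / (q : ℝ) ^ 2) * x with hMdef
  have hM : ((Np χ x).card : ℝ) ≤ M := by
    have h1 := hS q χ (by omega) h (q ^ 6) x (pow_pos hqn _) (by omega)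
    push_cast at h1
    have h2 : (q : ℝ) ^ 6 + 8 * q * ((q : ℝ) ^ 6) ^ 10 * Real.sqrt x ≤ 9 * (1 / (q : ℝ) ^ 2) * x := by
      have e1 : (q : ℝ) ^ 6 ≤ 1 / (q : ℝ) ^ 2 * x := by
        rw [one_div, inv_mul_eq_div, le_div_iff₀ (by positivity)]
        calc (q : ℝ) ^ 6 * (q : ℝ) ^ 2 = (q : ℝ) ^ 8 := by ring
          _ ≤ (q : ℝ) ^ 140 := pow_le_pow_right₀ (by linarith) (by norm_num)
          _ ≤ x := hxr
      have e2 : q * ((q : ℝ) ^ 6) ^ 10 * Real.sqrt x ≤ 1 / (q : ℝ) ^ 2 * x := by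
        rw [one_div, inv_mul_eq_div, le_div_iff₀ (by positivity)]
        calc q * ((q : ℝ) ^ 6) ^ 10 * Real.sqrt x * (q : ℝ) ^ 2 = (q : ℝ) ^ 63 * Real.sqrt x := by ring
          _ ≤ (q : ℝ) ^ 70 * Real.sqrt x := by
              gcongr
              · linarith
              · norm_num
          _ ≤ Real.sqrt x * Real.sqrt x := by gcongr
          _ = x := hsq
      nlinarith
    have h3 : ‖χ.LFunction 1‖ / T χ (q ^ 6) ≤ (C₁ + 1) * (lam + 1 / (q : ℝ) ^ 2) := by
      rcases hlam with rfl | ⟨β, hb1, hb2, hb3, rfl⟩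
      · have h4 : ‖χ.LFunction 1‖ / T χ (q ^ 6) ≤ ‖χ.LFunction 1‖ := div_le_self (norm_nonneg _) hT1
        have h5 : 0 ≤ 1 / (q : ℝ) ^ 2 := by positivity
        have h6 := norm_nonneg (χ.LFunction 1)
        nlinarith
      · have h4 := hZ q χ hq h β hb1 hb2 hb3
        rw [div_le_iff₀ hT0]
        have h5 : C₁ / (q : ℝ) ^ 2 ≤ C₁ / (q : ℝ) ^ 2 * T χ (q ^ 6) :=
          le_mul_of_one_le_right (by positivity) hT1
        have h6 : 0 ≤ (1 - β + 1 / (q : ℝ) ^ 2) * T χ (q ^ 6) := by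
          have : 0 ≤ 1 - β := by linarith
          positivity
        have e : (C₁ + 1) * (1 - β + 1 / (q : ℝ) ^ 2) * T χ (q ^ 6) =
            C₁ * (1 - β) * T χ (q ^ 6) + C₁ / (q : ℝ) ^ 2 * T χ (q ^ 6) +
              (1 - β + 1 / (q : ℝ) ^ 2) * T χ (q ^ 6) := by ring
        rw [e]
        linarith
    have h4 : x * ‖χ.LFunction 1‖ / T χ (q ^ 6) = x * (‖χ.LFunction 1‖ / T χ (q ^ 6)) := by ring
    rw [h4] at h1
    have h5 : x * (‖χ.LFunction 1‖ / T χ (q ^ 6)) ≤ x * ((C₁ + 1) * (lam + 1 / (q : ℝ) ^ 2)) := by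
      gcongr
    have h6 : 0 ≤ lam * x := by positivity
    rw [hMdef]
    nlinarith
  have hM0 : 0 ≤ M := (Nat.cast_nonneg _).trans hM
  obtain ⟨hc1, hc2, -⟩ := hC q χ hqn h
  have hφ : (0 : ℝ) < Nat.totient q := by exact_mod_cast Nat.totient_pos.2 hqn
  have hqs : (q : ℝ) ≤ Real.sqrt x := by
    refine le_trans ?_ hsqrt
    calc (q : ℝ) = (q : ℝ) ^ 1 := by ring
      _ ≤ (q : ℝ) ^ 70 := pow_le_pow_right₀ (by linarith) (by norm_num)
  -- the two even classes
  have hev : χ (-1) = 1 → ∀ p : ℕ, p = 2 ∨ p = 3 → p ∣ q →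
      ((S.filter (fun n => ¬ q ∣ n ∧ q / p ∣ n)).card : ℝ) ≤
        3 * (176 / δ * M * Real.log x / Nat.totient q) := by
    intro hχ p hp hpq
    obtain ⟨q', rfl⟩ := hpq
    have hp0 : 0 < p := by omega
    have hpp : p.Prime := by
      rcases hp with rfl | rfl
      · exact Nat.prime_two
      · exact Nat.prime_three
    have hq'0 : 0 < q' := Nat.pos_of_mul_pos_left hqn |> fun h => by
      rcases Nat.eq_zero_or_pos q' with h0 | h0
      · rw [h0, mul_zero] at hqn
        omega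
      · exact h0
    have hdiv : p * q' / p = q' := Nat.mul_div_cancel_left _ hp0
    have hle : (q' : ℝ) ≤ ((p * q' : ℕ) : ℝ) := by
      exact_mod_cast Nat.le_mul_of_pos_left _ hp0
    have h1 := one_class (S := S.filter (fun n => ¬ p * q' ∣ n ∧ p * q' / p ∣ n)) hA hq'0 hx1
      (hle.trans hqs) hδ hM (by
        intro n hn
        rw [mem_filter, hdiv] at hn
        refine ⟨(hS' n hn.1).1, hn.2.2, ?_⟩
        obtain ⟨w, hw⟩ := hn.2.2
        intro p₁ p₂ h12
        refine hc2 hχ p q' w n p₁ p₂ hp rfl ?_ hw h12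
        rintro ⟨v, rfl⟩
        exact hn.2.1 ⟨v, by rw [hw]; ring⟩) (by
        intro n hn
        rw [mem_filter] at hn
        exact (hS' n hn.1).2.2)
    refine h1.trans ?_
    have h2 : (Nat.totient (p * q') : ℝ) ≤ 3 * Nat.totient q' := by
      have h3 := tot_le (q' := q') hpp
      have h4 : p * Nat.totient q' ≤ 3 * Nat.totient q' := Nat.mul_le_mul_right _ (by omega)
      exact_mod_cast h3.trans h4
    have hφ' : (0 : ℝ) < Nat.totient q' := by exact_mod_cast Nat.totient_pos.2 hq'0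
    have h5 : 0 ≤ 176 / δ * M * Real.log x := by positivity
    rw [← mul_div_assoc, div_le_div_iff₀ hφ' hφ]
    calc 176 / δ * M * Real.log x * (Nat.totient (p * q') : ℝ)
        ≤ 176 / δ * M * Real.log x * (3 * Nat.totient q') := by gcongr
      _ = _ := by ring
  have hfin : (S.card : ℝ) ≤ 6 * (176 / δ * M * Real.log x / Nat.totient q) := by
    have h0 : 0 ≤ 176 / δ * M * Real.log x / Nat.totient q := by positivity
    by_cases hodd : χ (-1) = -1
    · have hne : ¬ χ (-1) = 1 := by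
        intro h1
        rw [hodd] at h1
        norm_num at h1
      have h1 := one_class (S := S) hA hqn hx1 hqs hδ hM (by
        intro n hn
        obtain ⟨h2, h3, -⟩ := hS' n hn
        have h4 : q ∣ n := by
          rcases h3 with h3 | h3
          · exact h3.2
          · exact absurd h3.1 hne
        exact ⟨h2, h4, fun p₁ p₂ h12 => hc1 hodd n p₁ p₂ h4 h12⟩) (fun n hn => (hS' n hn).2.2)
      linarith
    · by_cases heven : χ (-1) = 1
      · have hsub : S ⊆ S.filter (fun n => 2 ∣ q ∧ ¬ q ∣ n ∧ q / 2 ∣ n) ∪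
            S.filter (fun n => 3 ∣ q ∧ ¬ q ∣ n ∧ q / 3 ∣ n) := by
          intro n hn
          rw [mem_union, mem_filter, mem_filter]
          obtain ⟨-, h3, -⟩ := hS' n hn
          rcases h3 with h3 | ⟨-, h4, h5 | h5⟩
          · exact absurd h3.1 hodd
          · exact Or.inl ⟨hn, h5.1, h4, h5.2⟩
          · exact Or.inr ⟨hn, h5.1, h4, h5.2⟩
        have hcard := (Finset.card_le_card hsub).trans (Finset.card_union_le _ _)
        have hone : ∀ p : ℕ, p = 2 ∨ p = 3 →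
            ((S.filter (fun n => p ∣ q ∧ ¬ q ∣ n ∧ q / p ∣ n)).card : ℝ) ≤
              3 * (176 / δ * M * Real.log x / Nat.totient q) := by
          intro p hp
          by_cases hpq : p ∣ q
          · refine le_trans ?_ (hev heven p hp hpq)
            exact_mod_cast Finset.card_le_card (fun n hn => by
              rw [mem_filter] at hn ⊢
              exact ⟨hn.1, hn.2.2⟩)
          · have : S.filter (fun n => p ∣ q ∧ ¬ q ∣ n ∧ q / p ∣ n) = ∅ := by
              apply Finset.filter_eq_empty_iff.2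
              rintro n - ⟨h1, -⟩
              exact hpq h1
            rw [this, card_empty, Nat.cast_zero]
            positivity
        have h2 := hone 2 (Or.inl rfl)
        have h3 := hone 3 (Or.inr rfl)
        have h4 : (S.card : ℝ) ≤
            ((S.filter (fun n => 2 ∣ q ∧ ¬ q ∣ n ∧ q / 2 ∣ n)).card : ℝ) +
            ((S.filter (fun n => 3 ∣ q ∧ ¬ q ∣ n ∧ q / 3 ∣ n)).card : ℝ) := by
          exact_mod_cast hcard
        linarith
      · have : S = ∅ := by
          apply Finset.eq_empty_of_forall_notMem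
          intro n hn
          rcases (hS' n hn).2.1 with h3 | h3
          · exact hodd h3.1
          · exact heven h3.1
        rw [this, card_empty, Nat.cast_zero]
        positivity
  refine hfin.trans (le_of_eq ?_)
  rw [hMdef]
  ring

end Pool.Agent.E8helper23.SG
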