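import Pool.Agent.E8helper22.SZ.Stm

/-!
# Goldbach lower bounds and real zeros (project SG, MP_92f640_nt)

If `g n ≥ c n / (log n)²` for all large `n` divisible by `4` or by `6` (a consequence of the assertion
of the problem), then for every real primitive `χ` modulo a large `q` with `χ (-1) = -1` or `2 ∣ q` or
`3 ∣ q` the real zeros `β` of `L(s, χ)` satisfy `β ≤ 1 - c' φ(q) / (q log q)`.

This file has the definitions and the statements of the pieces. `x = q ^ k` with a fixed `k`.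
-/

set_option autoImplicit false

namespace Pool.Agent.E8helper23.SG

open Finset
open Pool.Agent.E8helper22.SZ (RealPrim cv tau)

/-- the number of the ordered representations of `n` as a sum of two primes -/
def g (n : ℕ) : ℕ := ((Finset.range (n + 1)).filter (fun p : ℕ => p.Prime ∧ (n - p).Prime)).card

/-- the primes `p ≤ x` with `χ p ≠ -1` -/
noncomputable def Np {q : ℕ} (χ : DirichletCharacter ℂ q) (x : ℕ) : Finset ℕ :=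
  (Icc 1 x).filter (fun p => p.Prime ∧ cv χ p ≠ -1)

/-- `∑_{n ≤ R} tau n / n` -/
noncomputable def T {q : ℕ} (χ : DirichletCharacter ℂ q) (R : ℕ) : ℝ :=
  ∑ n ∈ Icc 1 R, tau χ n / n

/-- CLS: no two primes with `χ = -1` add up to `n`. (BAL: `Pool.Agent.E8helper10.SZ`.) -/
def S_CLS : Prop := ∀ (q : ℕ) (χ : DirichletCharacter ℂ q), 0 < q → RealPrim q χ →
  (χ (-1) = -1 → ∀ n p₁ p₂ : ℕ, q ∣ n → p₁ + p₂ = n → ¬ (cv χ p₁ = -1 ∧ cv χ p₂ = -1)) ∧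
  (χ (-1) = 1 → ∀ p q' w n p₁ p₂ : ℕ, p = 2 ∨ p = 3 → q = p * q' → ¬ p ∣ w → n = q' * w →
    p₁ + p₂ = n → ¬ (cv χ p₁ = -1 ∧ cv χ p₂ = -1)) ∧
  (2 ∣ q → 4 ∣ q)

/-- ARC: counting the pairs with Brun-Titchmarsh (`Pool.Agent.H692R2.USS.t1_brun_titchmarsh`). -/
def S_ARC : Prop := ∀ (q q' x : ℕ) (χ : DirichletCharacter ℂ q) (S : Finset ℕ), 0 < q' → q' ≤ x →
  (∀ n ∈ S, n ≤ x ∧ q' ∣ n ∧ ∀ p₁ p₂ : ℕ, p₁ + p₂ = n → ¬ (cv χ p₁ = -1 ∧ cv χ p₂ = -1)) →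
  ∑ n ∈ S, (g n : ℝ) ≤ 2 * (Np χ x).card *
    (22 * ((q' : ℝ) / Nat.totient q') * ((x / q' + 1 : ℕ) : ℝ) / Real.log ((x / q' + 1 : ℕ) : ℝ))

/-- GOLD: many primes with `χ p ≠ -1`. -/
def S_GOLD : Prop := ∀ (c : ℝ) (n₀ k : ℕ), 0 < c → 2 ≤ k →
  (∀ n : ℕ, n₀ ≤ n → (4 ∣ n ∨ 6 ∣ n) → c * (n : ℝ) / Real.log n ^ 2 ≤ (g n : ℝ)) →
  ∃ c' : ℝ, 0 < c' ∧ ∃ q₀ : ℕ, ∀ (q : ℕ) (χ : DirichletCharacter ℂ q), q₀ ≤ q → RealPrim q χ →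
    (χ (-1) = -1 ∨ 2 ∣ q ∨ 3 ∣ q) →
    c' * (q : ℝ) ^ k * (Nat.totient q : ℝ) / (q * Real.log q) ≤ ((Np χ (q ^ k)).card : ℝ)

/-- SUMT: the sum of `tau` (hyperbola method). -/
def S_SUMT : Prop := ∀ (q : ℕ) [NeZero q] (χ : DirichletCharacter ℂ q), 1 < q → RealPrim q χ →
  ∀ y : ℝ, 0 ≤ y →
  |∑ k ∈ Icc 1 ⌊y⌋₊, tau χ k - y * (χ.LFunction 1).re| ≤ 8 * q * Real.sqrt y

/-- DIV: the sum of `tau` over the multiples of a squarefree `d`. -/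
def S_DIV : Prop := ∀ (q : ℕ) [NeZero q] (χ : DirichletCharacter ℂ q), 1 < q → RealPrim q χ →
  ∀ d : ℕ, Squarefree d → ∀ y : ℝ, 0 ≤ y →
  |∑ m ∈ Icc 1 ⌊y⌋₊, tau χ (d * m) -
      y * (χ.LFunction 1).re * ∏ p ∈ d.primeFactors, (1 + cv χ p - cv χ p / p)| ≤
    8 * q * (d : ℝ) ^ 2 * Real.sqrt y

/-- HSUM: the Selberg sum is at least `T R`. -/
def S_HSUM : Prop := ∀ (q : ℕ) (χ : DirichletCharacter ℂ q), 0 < q → RealPrim q χ → ∀ R : ℕ,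
  T χ R ≤ ∑ l ∈ (Icc 1 R).filter Squarefree,
    ∏ p ∈ l.primeFactors, (1 / ((1 - 1 / (p : ℝ)) * (1 - cv χ p / p)) - 1)

/-- SIEVE: the Selberg sieve with the weights `tau`. -/
def S_SIEVE : Prop := ∀ (q : ℕ) [NeZero q] (χ : DirichletCharacter ℂ q), 1 < q → RealPrim q χ →
  ∀ R x : ℕ, 0 < R → 0 < x →
  ((Np χ x).card : ℝ) ≤ x * ‖χ.LFunction 1‖ / T χ R + R + 8 * q * (R : ℝ) ^ 10 * Real.sqrt x

/-- TAIL: the partial sums of `L(β, χ)`. -/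
def S_TAIL : Prop := ∀ (q : ℕ) [NeZero q] (χ : DirichletCharacter ℂ q), 1 < q → RealPrim q χ →
  ∀ β : ℝ, 1 / 2 ≤ β → β ≤ 1 →
  (∀ A B : ℕ, 0 < A → |∑ d ∈ Ioc A B, cv χ d * (d : ℝ) ^ (-β)| ≤ 2 * q * (A : ℝ) ^ (-β)) ∧
  ∀ D : ℕ, 0 < D → |∑ d ∈ Icc 1 D, cv χ d * (d : ℝ) ^ (-β) - (χ.LFunction β).re| ≤
    2 * q * (D : ℝ) ^ (-β)

/-- POWS: the sums of `m ^ (-β)`. -/
def S_POWS : Prop := ∀ β : ℝ, 1 / 2 ≤ β → β < 1 → ∃ κ : ℝ, |κ| ≤ 1 / (1 - β) + 1 ∧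
  (∀ y : ℝ, 1 ≤ y → |∑ m ∈ Icc 1 ⌊y⌋₊, (m : ℝ) ^ (-β) - y ^ (1 - β) / (1 - β) - κ| ≤
    2 * y ^ (-β)) ∧
  ∀ y : ℝ, 1 ≤ y → ∑ m ∈ Icc 1 ⌊y⌋₊, (m : ℝ) ^ (-β) ≤ y ^ (1 - β) * (1 + Real.log y)

/-- ZT: a real zero makes `L(1, χ)` small. -/
def S_ZT : Prop := ∃ C : ℝ, 0 < C ∧ ∀ (q : ℕ) [NeZero q] (χ : DirichletCharacter ℂ q), 8 ≤ q →
  RealPrim q χ → ∀ β : ℝ, 1 - 1 / Real.log q ≤ β → β < 1 → χ.LFunction β = 0 →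
  ‖χ.LFunction 1‖ ≤ C * (1 - β) * T χ (q ^ 6) + C / (q : ℝ) ^ 2

/-- FIN: the bound for the real zeros. -/
def S_FIN : Prop :=
  (∃ c : ℝ, 0 < c ∧ ∃ n₀ : ℕ, ∀ n : ℕ, n₀ ≤ n → (4 ∣ n ∨ 6 ∣ n) →
    c * (n : ℝ) / Real.log n ^ 2 ≤ (g n : ℝ)) →
  ∃ c : ℝ, 0 < c ∧ ∃ q₀ : ℕ, ∀ (q : ℕ) [NeZero q] (χ : DirichletCharacter ℂ q), q₀ ≤ q →
    RealPrim q χ → (χ (-1) = -1 ∨ 2 ∣ q ∨ 3 ∣ q) → ∀ β : ℝ, χ.LFunction β = 0 →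
    β ≤ 1 - c * (Nat.totient q : ℝ) / (q * Real.log q)

end Pool.Agent.E8helper23.SG
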