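import Pool.Agent.E8helper23.SG.Stm
import Pool.Agent.E8helper23.SZ.Lsum

/-! Project SG, piece ZT: a real zero makes `L(1, χ)` small. -/

set_option autoImplicit false

namespace Pool.Agent.E8helper23.SG

open Finset
open Pool.Agent.E8helper22.SZ (RealPrim cv tau)

lemma hyp1 (F : ℕ → ℕ → ℝ) (R : ℕ) :
    ∑ n ∈ Icc 1 R, ∑ d ∈ n.divisors, F d (n / d) =
      ∑ d ∈ Icc 1 R, ∑ m ∈ Icc 1 (R / d), F d m := by
  rw [Finset.sum_sigma', Finset.sum_sigma']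
  refine Finset.sum_bij' (fun a _ => ⟨a.2, a.1 / a.2⟩) (fun a _ => ⟨a.1 * a.2, a.1⟩) ?_ ?_ ?_ ?_ ?_
  · rintro ⟨n, d⟩ h
    simp only [mem_sigma, mem_Icc, Nat.mem_divisors] at h ⊢
    obtain ⟨⟨h1, h2⟩, ⟨e, he⟩, h4⟩ := h
    subst he
    have hd : 0 < d := Nat.pos_of_ne_zero (by rintro rfl; simp at h4)
    have he : 0 < e := Nat.pos_of_ne_zero (by rintro rfl; simp at h4)
    rw [Nat.mul_div_cancel_left _ hd]
    refine ⟨⟨hd, (Nat.le_mul_of_pos_right d he).trans h2⟩, he, ?_⟩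
    rw [Nat.le_div_iff_mul_le hd, mul_comm]
    exact h2
  · rintro ⟨d, m⟩ h
    simp only [mem_sigma, mem_Icc, Nat.mem_divisors] at h ⊢
    obtain ⟨⟨h1, h2⟩, h3, h4⟩ := h
    rw [Nat.le_div_iff_mul_le h1, mul_comm] at h4
    exact ⟨⟨Nat.mul_pos h1 h3, h4⟩, Dvd.intro _ rfl, (Nat.mul_pos h1 h3).ne'⟩
  · rintro ⟨n, d⟩ h
    simp only [mem_sigma, mem_Icc, Nat.mem_divisors] at h
    obtain ⟨⟨h1, h2⟩, h3, h4⟩ := h
    simp only [Nat.mul_div_cancel' h3]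
  · rintro ⟨d, m⟩ h
    simp only [mem_sigma, mem_Icc] at h
    obtain ⟨⟨h1, h2⟩, h3, h4⟩ := h
    simp only [Nat.mul_div_cancel_left _ h1]
  · rintro ⟨n, d⟩ h
    rfl

lemma hyp2 (F : ℕ → ℕ → ℝ) (R D : ℕ) (hD : 0 < D) (hDR : D ≤ R) :
    ∑ d ∈ Icc 1 R, ∑ m ∈ Icc 1 (R / d), F d m =
      ∑ d ∈ Icc 1 D, ∑ m ∈ Icc 1 (R / d), F d m +
        ∑ m ∈ Icc 1 (R / D), ∑ d ∈ Ioc D (R / m), F d m := by
  have e : Icc 1 R = Icc 1 D ∪ Ioc D R := by
    ext x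
    simp only [mem_union, mem_Icc, mem_Ioc]
    omega
  have hdisj : Disjoint (Icc 1 D) (Ioc D R) := by
    rw [Finset.disjoint_left]
    intro x hx hx'
    rw [mem_Icc] at hx
    rw [mem_Ioc] at hx'
    omega
  rw [e, Finset.sum_union hdisj]
  congr 1
  apply Finset.sum_comm'
  intro d m
  simp only [mem_Ioc, mem_Icc]
  constructor
  · rintro ⟨⟨h1, h2⟩, h3, h4⟩
    have hd : 0 < d := by omega
    have h5 : d * m ≤ R := by
      rw [Nat.le_div_iff_mul_le hd, mul_comm] at h4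
      exact h4
    refine ⟨⟨h1, ?_⟩, h3, ?_⟩
    · rw [Nat.le_div_iff_mul_le h3]
      exact h5
    · exact h4.trans (Nat.div_le_div_left h1.le hD)
  · rintro ⟨⟨h1, h2⟩, h3, h4⟩
    have hd : 0 < d := by omega
    have h5 : d * m ≤ R := by
      rw [Nat.le_div_iff_mul_le h3] at h2
      exact h2
    refine ⟨⟨h1, (Nat.le_mul_of_pos_right d h3).trans h5⟩, h3, ?_⟩
    rw [Nat.le_div_iff_mul_le hd, mul_comm]
    exact h5

lemma ne_one' {q : ℕ} [NeZero q] {χ : DirichletCharacter ℂ q} (hq : 1 < q) (h : RealPrim q χ) :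
    χ ≠ 1 := by
  rintro rfl
  have h1 := h.prim
  rw [DirichletCharacter.isPrimitive_def, DirichletCharacter.conductor_one] at h1
  omega

lemma cv_val {q : ℕ} {χ : DirichletCharacter ℂ q} (h : RealPrim q χ) (m : ℕ) :
    cv χ m = 0 ∨ cv χ m = 1 ∨ cv χ m = -1 := by
  unfold Pool.Agent.E8helper22.SZ.cv
  rcases h.quad (m : ZMod q) with h | h | h <;> rw [h] <;> simp

lemma cv_abs {q : ℕ} {χ : DirichletCharacter ℂ q} (h : RealPrim q χ) (m : ℕ) :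
    |cv χ m| ≤ 1 := by
  rcases cv_val h m with h | h | h <;> rw [h] <;> simp

lemma coe_cv {q : ℕ} {χ : DirichletCharacter ℂ q} (h : RealPrim q χ) (m : ℕ) :
    ((cv χ m : ℝ) : ℂ) = χ (m : ZMod q) := by
  unfold Pool.Agent.E8helper22.SZ.cv
  rcases h.quad (m : ZMod q) with h | h | h <;> rw [h] <;> simp

/-- `L(1, χ)` and the partial sum -/
lemma L1_le {q : ℕ} [NeZero q] {χ : DirichletCharacter ℂ q} (hq : 1 < q) (h : RealPrim q χ)
    (D : ℕ) : ‖χ.LFunction 1‖ ≤ |∑ d ∈ Icc 1 D, cv χ d / d| + 2 * q / ((D : ℝ) + 1) := by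
  have h1 := Pool.Agent.E8helper23.SZ.tail_one χ (ne_one' hq h) D
  have h2 : ∑ i ∈ range (D + 1), χ (i : ZMod q) * (((i : ℝ)⁻¹ : ℝ) : ℂ) =
      ((∑ d ∈ Icc 1 D, cv χ d / d : ℝ) : ℂ) := by
    have e : range (D + 1) = insert 0 (Icc 1 D) := by
      ext x
      simp only [mem_range, mem_insert, mem_Icc]
      omega
    rw [e, Finset.sum_insert (by simp)]
    simp only [Nat.cast_zero, inv_zero, Complex.ofReal_zero, mul_zero, zero_add]
    rw [Complex.ofReal_sum]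
    apply Finset.sum_congr rfl
    intro d _
    rw [← coe_cv h d, ← Complex.ofReal_mul, div_eq_mul_inv]
  rw [h2] at h1
  have h3 : ‖χ.LFunction 1‖ ≤ ‖χ.LFunction 1 - ((∑ d ∈ Icc 1 D, cv χ d / d : ℝ) : ℂ)‖ +
      ‖((∑ d ∈ Icc 1 D, cv χ d / d : ℝ) : ℂ)‖ := by
    have := norm_add_le (χ.LFunction 1 - ((∑ d ∈ Icc 1 D, cv χ d / d : ℝ) : ℂ))
      ((∑ d ∈ Icc 1 D, cv χ d / d : ℝ) : ℂ)
    rwa [sub_add_cancel] at this
  rw [Complex.norm_real, Real.norm_eq_abs] at h3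
  have h4 : 2 * (q : ℝ) * (((D + 1 : ℕ) : ℝ)⁻¹) = 2 * q / ((D : ℝ) + 1) := by
    push_cast
    rw [div_eq_mul_inv]
  linarith

theorem t_ZT (hT : S_TAIL) (hP : S_POWS) (hPos : Pool.Agent.E8helper22.SZ.S_POS) : S_ZT := by
  refine ⟨4 * Real.exp 3 + 8 * Real.exp 6 + 3, by positivity, ?_⟩
  intro q _ χ hq h β hβ hβ1 hL
  have hq0 : (0 : ℝ) < q := by positivity
  have hq8 : (8 : ℝ) ≤ q := by exact_mod_cast hq
  have hq1 : 1 < q := by omega
  have hlog2 : 2 ≤ Real.log q := by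
    rw [Real.le_log_iff_exp_le hq0]
    refine le_trans ?_ hq8
    have e1 := Real.exp_one_lt_d9
    have e2 : Real.exp 2 = Real.exp 1 * Real.exp 1 := by
      rw [← Real.exp_add]
      norm_num
    rw [e2]
    nlinarith [Real.exp_pos 1]
  have hlogpos : 0 < Real.log q := by linarith
  have hδ : 0 < 1 - β := by linarith
  have hδ1 : (1 - β) * Real.log q ≤ 1 := by
    have h1 : 1 - β ≤ 1 / Real.log q := by linarith
    calc (1 - β) * Real.log q ≤ 1 / Real.log q * Real.log q := by gcongr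
      _ = 1 := by field_simp
  have hβ2 : 1 / 2 ≤ β := by
    have : 1 / Real.log q ≤ 1 / 2 := one_div_le_one_div_of_le (by norm_num) hlog2
    linarith
  set D : ℕ := q ^ 3 with hD
  set R : ℕ := q ^ 6 with hR
  have hD0 : 0 < D := by positivity
  have hR0 : 0 < R := by positivity
  have hDR : D ≤ R := Nat.pow_le_pow_right (by omega) (by norm_num)
  have hRD : R / D = D := by
    rw [hR, hD, show q ^ 6 = q ^ 3 * q ^ 3 by ring, Nat.mul_div_cancel _ (by positivity)]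
  have hDr : (0 : ℝ) < D := by exact_mod_cast hD0
  have hRr : (0 : ℝ) < R := by exact_mod_cast hR0
  have hDq : (D : ℝ) = (q : ℝ) ^ 3 := by rw [hD]; push_cast; rfl
  have hRq : (R : ℝ) = (q : ℝ) ^ 6 := by rw [hR]; push_cast; rfl
  have hRDr : (R : ℝ) = D * D := by rw [hDq, hRq]; ring
  have hlogD : Real.log D = 3 * Real.log q := by rw [hDq, Real.log_pow]; norm_num
  have hlogR : Real.log R = 6 * Real.log q := by rw [hRq, Real.log_pow]; norm_num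
  -- powers
  have pD : (D : ℝ) ^ (1 - β) ≤ Real.exp 3 := by
    rw [Real.rpow_def_of_pos hDr, hlogD]
    apply Real.exp_le_exp.2
    nlinarith
  have pR : (R : ℝ) ^ (1 - β) ≤ Real.exp 6 := by
    rw [Real.rpow_def_of_pos hRr, hlogR]
    apply Real.exp_le_exp.2
    nlinarith
  have pD' : (D : ℝ) ^ (-β) ≤ Real.exp 3 / D := by
    have e : (D : ℝ) ^ (-β) = (D : ℝ) ^ (1 - β) / D := by
      rw [show -β = (1 - β) - 1 by ring, Real.rpow_sub_one hDr.ne']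
    rw [e]
    gcongr
  have pR' : (R : ℝ) ^ (-β) ≤ Real.exp 6 / R := by
    have e : (R : ℝ) ^ (-β) = (R : ℝ) ^ (1 - β) / R := by
      rw [show -β = (1 - β) - 1 by ring, Real.rpow_sub_one hRr.ne']
    rw [e]
    gcongr
  have hR1 : 1 ≤ (R : ℝ) ^ (1 - β) := Real.one_le_rpow (by exact_mod_cast hR0) hδ.le
  obtain ⟨κ, hκ, hZ, hZ2⟩ := hP β hβ2 hβ1
  obtain ⟨hT1, hT2⟩ := hT q χ hq1 h β hβ2 hβ1.le
  -- the sum
  set S₁ : ℝ := ∑ d ∈ Icc 1 D, cv χ d / d with hS₁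
  set Sβ : ℝ := ∑ d ∈ Icc 1 D, cv χ d * (d : ℝ) ^ (-β) with hSβ
  have hSβ' : |Sβ| ≤ 2 * q * (D : ℝ) ^ (-β) := by
    have := hT2 D hD0
    rw [hL] at this
    simpa using this
  set Tβ : ℝ := ∑ n ∈ Icc 1 R, tau χ n * (n : ℝ) ^ (-β) with hTβ
  set B : ℝ := ∑ m ∈ Icc 1 (R / D), ∑ d ∈ Ioc D (R / m), cv χ d * ((d : ℝ) ^ (-β) * (m : ℝ) ^ (-β))
    with hB
  set Z : ℝ → ℝ := fun y => ∑ m ∈ Icc 1 ⌊y⌋₊, (m : ℝ) ^ (-β) with hZdef
  have hfl : ∀ d : ℕ, ⌊(R : ℝ) / d⌋₊ = R / d := by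
    intro d
    rw [Nat.floor_div_natCast, Nat.floor_natCast]
  have key : Tβ = ∑ d ∈ Icc 1 D, cv χ d * (d : ℝ) ^ (-β) * Z ((R : ℝ) / d) + B := by
    have e1 : Tβ = ∑ n ∈ Icc 1 R, ∑ d ∈ n.divisors,
        (fun d m : ℕ => cv χ d * ((d : ℝ) ^ (-β) * (m : ℝ) ^ (-β))) d (n / d) := by
      rw [hTβ]
      apply Finset.sum_congr rfl
      intro n hn
      unfold Pool.Agent.E8helper22.SZ.tau
      rw [Finset.sum_mul]
      apply Finset.sum_congr rfl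
      intro d hd
      have hd' := Nat.dvd_of_mem_divisors hd
      have e2 : (n : ℝ) = d * ((n / d : ℕ) : ℝ) := by
        rw [← Nat.cast_mul, Nat.mul_div_cancel' hd']
      simp only
      rw [← Real.mul_rpow (Nat.cast_nonneg _) (Nat.cast_nonneg _), ← e2]
    rw [e1, hyp1 (fun d m : ℕ => cv χ d * ((d : ℝ) ^ (-β) * (m : ℝ) ^ (-β))) R, hyp2 _ R D hD0 hDR]
    congr 1
    apply Finset.sum_congr rfl
    intro d _
    rw [hZdef]
    simp only
    rw [hfl d, Finset.mul_sum]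
    apply Finset.sum_congr rfl
    intro m _
    ring
  -- the main part
  have hmain : |∑ d ∈ Icc 1 D, cv χ d * (d : ℝ) ^ (-β) * Z ((R : ℝ) / d) -
      ((R : ℝ) ^ (1 - β) / (1 - β) * S₁ + κ * Sβ)| ≤ 2 * D * (R : ℝ) ^ (-β) := by
    have e1 : (R : ℝ) ^ (1 - β) / (1 - β) * S₁ + κ * Sβ = ∑ d ∈ Icc 1 D,
        cv χ d * (d : ℝ) ^ (-β) * (((R : ℝ) / d) ^ (1 - β) / (1 - β) + κ) := by
      rw [hS₁, hSβ, Finset.mul_sum, Finset.mul_sum, ← Finset.sum_add_distrib]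
      apply Finset.sum_congr rfl
      intro d hd
      have hd0 : (0 : ℝ) < d := by
        exact_mod_cast (Finset.mem_Icc.1 hd).1
      rw [Real.div_rpow hRr.le hd0.le]
      have e2 : (d : ℝ) ^ (-β) = (d : ℝ) ^ (1 - β) / d := by
        rw [show -β = (1 - β) - 1 by ring, Real.rpow_sub_one hd0.ne']
      have e3 : 0 < (d : ℝ) ^ (1 - β) := Real.rpow_pos_of_pos hd0 _
      have e4 : cv χ d / d = cv χ d * (d : ℝ) ^ (-β) / (d : ℝ) ^ (1 - β) := by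
        rw [e2]
        field_simp
      rw [e4]
      field_simp
    rw [e1, ← Finset.sum_sub_distrib]
    refine (Finset.abs_sum_le_sum_abs _ _).trans ?_
    have hb : ∀ d ∈ Icc 1 D, |cv χ d * (d : ℝ) ^ (-β) * Z ((R : ℝ) / d) -
        cv χ d * (d : ℝ) ^ (-β) * (((R : ℝ) / d) ^ (1 - β) / (1 - β) + κ)| ≤
        2 * (R : ℝ) ^ (-β) := by
      intro d hd
      have hd1 := (Finset.mem_Icc.1 hd)
      have hd0 : (0 : ℝ) < d := by exact_mod_cast hd1.1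
      have hy : 1 ≤ (R : ℝ) / d := by
        rw [le_div_iff₀ hd0, one_mul]
        exact_mod_cast hd1.2.trans hDR
      have h1 := hZ _ hy
      have h1' : |Z ((R : ℝ) / d) - (((R : ℝ) / d) ^ (1 - β) / (1 - β) + κ)| ≤
          2 * ((R : ℝ) / d) ^ (-β) := by
        rw [hZdef]
        simp only
        rw [← sub_sub]
        exact h1
      rw [← mul_sub, abs_mul, abs_mul, abs_of_pos (Real.rpow_pos_of_pos hd0 (-β))]
      have h2 := cv_abs h d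
      have h3 : (0 : ℝ) ≤ (d : ℝ) ^ (-β) := (Real.rpow_pos_of_pos hd0 _).le
      calc |cv χ d| * (d : ℝ) ^ (-β) * |Z ((R : ℝ) / d) - (((R : ℝ) / d) ^ (1 - β) / (1 - β) + κ)|
          ≤ 1 * (d : ℝ) ^ (-β) * (2 * ((R : ℝ) / d) ^ (-β)) := by gcongr
        _ = 2 * ((d : ℝ) * ((R : ℝ) / d)) ^ (-β) := by
            rw [Real.mul_rpow hd0.le (by positivity)]
            ring
        _ = 2 * (R : ℝ) ^ (-β) := by
            rw [mul_div_cancel₀ _ hd0.ne']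
    refine (Finset.sum_le_sum hb).trans ?_
    rw [Finset.sum_const, Nat.card_Icc, nsmul_eq_mul]
    have : ((D + 1 - 1 : ℕ) : ℝ) = D := by simp
    rw [this]
    apply le_of_eq
    ring
  -- the second part
  have hBb : |B| ≤ (D : ℝ) ^ (1 - β) * (1 + 3 * Real.log q) * (2 * q * (D : ℝ) ^ (-β)) := by
    have h1 : |B| ≤ ∑ m ∈ Icc 1 (R / D), (m : ℝ) ^ (-β) * (2 * q * (D : ℝ) ^ (-β)) := by
      rw [hB]
      refine (Finset.abs_sum_le_sum_abs _ _).trans (Finset.sum_le_sum fun m _ => ?_)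
      have e : ∑ d ∈ Ioc D (R / m), cv χ d * ((d : ℝ) ^ (-β) * (m : ℝ) ^ (-β)) =
          (m : ℝ) ^ (-β) * ∑ d ∈ Ioc D (R / m), cv χ d * (d : ℝ) ^ (-β) := by
        rw [Finset.mul_sum]
        apply Finset.sum_congr rfl
        intro d _
        ring
      rw [e, abs_mul, abs_of_nonneg (Real.rpow_nonneg (Nat.cast_nonneg _) _)]
      have := hT1 D (R / m) hD0
      have h3 : (0 : ℝ) ≤ (m : ℝ) ^ (-β) := Real.rpow_nonneg (Nat.cast_nonneg _) _
      gcongr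
    refine h1.trans ?_
    rw [← Finset.sum_mul, hRD]
    have h2 := hZ2 (D : ℝ) (by exact_mod_cast hD0)
    rw [Nat.floor_natCast, hlogD] at h2
    have h3 : 0 ≤ 2 * (q : ℝ) * (D : ℝ) ^ (-β) := by positivity
    gcongr
  -- the bound for T
  have hTb : Tβ ≤ (R : ℝ) ^ (1 - β) * T χ R := by
    unfold T
    rw [hTβ, Finset.mul_sum]
    apply Finset.sum_le_sum
    intro n hn
    have hn1 := Finset.mem_Icc.1 hn
    have hn0 : (0 : ℝ) < n := by exact_mod_cast hn1.1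
    have e2 : (n : ℝ) ^ (-β) = (n : ℝ) ^ (1 - β) / n := by
      rw [show -β = (1 - β) - 1 by ring, Real.rpow_sub_one hn0.ne']
    have h1 : (n : ℝ) ^ (1 - β) ≤ (R : ℝ) ^ (1 - β) :=
      Real.rpow_le_rpow hn0.le (by exact_mod_cast hn1.2) hδ.le
    have h2 := (hPos q χ (by omega) h n hn1.1).1
    rw [e2]
    calc tau χ n * ((n : ℝ) ^ (1 - β) / n) = (n : ℝ) ^ (1 - β) * (tau χ n / n) := by ring
      _ ≤ (R : ℝ) ^ (1 - β) * (tau χ n / n) := by gcongr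
  have hTβ0 : 0 ≤ Tβ := by
    rw [hTβ]
    apply Finset.sum_nonneg
    intro n hn
    have h2 := (hPos q χ (by omega) h n (Finset.mem_Icc.1 hn).1).1
    exact mul_nonneg h2 (Real.rpow_nonneg (Nat.cast_nonneg _) _)
  -- combination
  have hS : (R : ℝ) ^ (1 - β) * |S₁| ≤ (1 - β) * Tβ + ((1 - β) * |κ|) * |Sβ| +
      (1 - β) * (2 * D * (R : ℝ) ^ (-β)) + (1 - β) * |B| := by
    set M : ℝ := ∑ d ∈ Icc 1 D, cv χ d * (d : ℝ) ^ (-β) * Z ((R : ℝ) / d) with hM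
    have e1 : (R : ℝ) ^ (1 - β) * S₁ = (1 - β) * (Tβ - κ * Sβ -
        (M - ((R : ℝ) ^ (1 - β) / (1 - β) * S₁ + κ * Sβ)) - B) := by
      rw [key]
      field_simp
      ring
    have e2 : (R : ℝ) ^ (1 - β) * |S₁| = |(R : ℝ) ^ (1 - β) * S₁| := by
      rw [abs_mul, abs_of_nonneg (show (0 : ℝ) ≤ (R : ℝ) ^ (1 - β) by linarith)]
    rw [e2, e1, abs_mul, abs_of_pos hδ]
    have e3 : |Tβ - κ * Sβ - (M - ((R : ℝ) ^ (1 - β) / (1 - β) * S₁ + κ * Sβ)) - B| ≤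
        Tβ + |κ| * |Sβ| + 2 * D * (R : ℝ) ^ (-β) + |B| := by
      refine (abs_sub _ _).trans ?_
      gcongr
      refine (abs_sub _ _).trans ?_
      gcongr
      refine (abs_sub _ _).trans ?_
      rw [abs_of_nonneg hTβ0, abs_mul]
    calc (1 - β) * |Tβ - κ * Sβ - (M - ((R : ℝ) ^ (1 - β) / (1 - β) * S₁ + κ * Sβ)) - B|
        ≤ (1 - β) * (Tβ + |κ| * |Sβ| + 2 * D * (R : ℝ) ^ (-β) + |B|) := by gcongr
      _ = _ := by ring
  have hκ2 : (1 - β) * |κ| ≤ 2 := by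
    calc (1 - β) * |κ| ≤ (1 - β) * (1 / (1 - β) + 1) := by gcongr
      _ = 1 + (1 - β) := by field_simp
      _ ≤ 2 := by linarith
  have hδ2 : 1 - β ≤ 1 / 2 := by linarith
  have b1 : ((1 - β) * |κ|) * |Sβ| ≤ 4 * Real.exp 3 / (q : ℝ) ^ 2 := by
    calc ((1 - β) * |κ|) * |Sβ| ≤ 2 * (2 * q * (Real.exp 3 / D)) := by
          refine mul_le_mul hκ2 (hSβ'.trans ?_) (abs_nonneg _) (by norm_num)
          gcongr
      _ = 4 * Real.exp 3 / (q : ℝ) ^ 2 := by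
          rw [hDq]
          field_simp
          ring
  have b2 : (1 - β) * (2 * D * (R : ℝ) ^ (-β)) ≤ Real.exp 6 / (q : ℝ) ^ 2 := by
    calc (1 - β) * (2 * D * (R : ℝ) ^ (-β)) ≤ 1 / 2 * (2 * D * (Real.exp 6 / R)) := by
          gcongr
      _ = Real.exp 6 / (q : ℝ) ^ 3 := by
          rw [hDq, hRq]
          field_simp
      _ ≤ Real.exp 6 / (q : ℝ) ^ 2 := by
          apply div_le_div_of_nonneg_left (Real.exp_pos _).le (by positivity)
          exact pow_le_pow_right₀ (by linarith) (by norm_num)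
  have b3 : (1 - β) * |B| ≤ 7 * Real.exp 6 / (q : ℝ) ^ 2 := by
    have h36 : Real.exp 6 = Real.exp 3 * Real.exp 3 := by
      rw [← Real.exp_add]
      norm_num
    calc (1 - β) * |B| ≤ (1 - β) * ((D : ℝ) ^ (1 - β) * (1 + 3 * Real.log q) *
          (2 * q * (D : ℝ) ^ (-β))) := by gcongr
      _ = ((1 - β) + 3 * ((1 - β) * Real.log q)) * ((D : ℝ) ^ (1 - β) *
          (2 * q * (D : ℝ) ^ (-β))) := by ring
      _ ≤ (7 / 2) * (Real.exp 3 * (2 * q * (Real.exp 3 / D))) := by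
          gcongr
          linarith
      _ = 7 * Real.exp 6 / (q : ℝ) ^ 2 := by
          rw [hDq, h36]
          field_simp
  have hS1 : |S₁| ≤ (1 - β) * T χ R + (4 * Real.exp 3 + 8 * Real.exp 6) / (q : ℝ) ^ 2 := by
    have h1 : (R : ℝ) ^ (1 - β) * |S₁| ≤ (R : ℝ) ^ (1 - β) * ((1 - β) * T χ R +
        (4 * Real.exp 3 + 8 * Real.exp 6) / (q : ℝ) ^ 2) := by
      have h2 : (1 - β) * Tβ ≤ (R : ℝ) ^ (1 - β) * ((1 - β) * T χ R) := by
        calc (1 - β) * Tβ ≤ (1 - β) * ((R : ℝ) ^ (1 - β) * T χ R) := by gcongr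
          _ = _ := by ring
      have h3 : (4 * Real.exp 3 + 8 * Real.exp 6) / (q : ℝ) ^ 2 ≤
          (R : ℝ) ^ (1 - β) * ((4 * Real.exp 3 + 8 * Real.exp 6) / (q : ℝ) ^ 2) :=
        le_mul_of_one_le_left (by positivity) hR1
      have h4 : (4 * Real.exp 3 + 8 * Real.exp 6) / (q : ℝ) ^ 2 = 4 * Real.exp 3 / (q : ℝ) ^ 2 +
          Real.exp 6 / (q : ℝ) ^ 2 + 7 * Real.exp 6 / (q : ℝ) ^ 2 := by ring
      rw [mul_add]
      linarith
    exact le_of_mul_le_mul_left h1 (by linarith)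
  have hfin := L1_le hq1 h D
  have h5 : 2 * (q : ℝ) / ((D : ℝ) + 1) ≤ 2 / (q : ℝ) ^ 2 := by
    rw [div_le_div_iff₀ (by positivity) (by positivity), hDq]
    nlinarith
  have hT0 : 0 ≤ T χ R := by
    unfold T
    apply Finset.sum_nonneg
    intro n hn
    have h2 := (hPos q χ (by omega) h n (Finset.mem_Icc.1 hn).1).1
    positivity
  have h6 : (1 - β) * T χ R ≤ (4 * Real.exp 3 + 8 * Real.exp 6 + 3) * (1 - β) * T χ R := by
    have : 1 ≤ 4 * Real.exp 3 + 8 * Real.exp 6 + 3 := by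
      have := Real.exp_pos 3
      have := Real.exp_pos 6
      linarith
    have h7 : 0 ≤ (1 - β) * T χ R := by positivity
    nlinarith
  have h8 : (4 * Real.exp 3 + 8 * Real.exp 6 + 3) / (q : ℝ) ^ 2 =
      (4 * Real.exp 3 + 8 * Real.exp 6) / (q : ℝ) ^ 2 + 2 / (q : ℝ) ^ 2 + 1 / (q : ℝ) ^ 2 := by ring
  have h9 : 0 ≤ 1 / (q : ℝ) ^ 2 := by positivity
  rw [h8]
  linarith

end Pool.Agent.E8helper23.SG
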